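import Mathlib

set_option autoImplicit false

/-!
Elementary inequalities for packet G.
-/

open Complex

namespace Pool.Agent.Helper11.Qip

theorem exp_taylor (x : ℝ) : ‖cexp (I * x) - (1 + I * x - (x : ℂ) ^ 2 / 2)‖ ≤
    if |x| ≤ 1 then |x| ^ 3 else 4 * x ^ 2 := by
  split_ifs with h
  · have h1 : ‖I * (x : ℂ)‖ ≤ 1 := by simpa using h
    have h2 := Complex.exp_bound h1 (n := 3) (by norm_num)
    have h3 : ∑ m ∈ Finset.range 3, (I * (x : ℂ)) ^ m / (m.factorial : ℂ)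
        = 1 + I * x - (x : ℂ) ^ 2 / 2 := by
      simp only [Finset.sum_range_succ, Finset.sum_range_zero]
      norm_num [Nat.factorial]
      rw [mul_pow, I_sq]
      ring
    rw [h3] at h2
    refine h2.trans ?_
    have h4 : ‖I * (x : ℂ)‖ = |x| := by simp
    rw [h4]
    have h5 : 0 ≤ |x| ^ 3 := by positivity
    norm_num [Nat.factorial]
    nlinarith
  · push Not at h
    have h1 : ‖cexp (I * x)‖ = 1 := by
      rw [mul_comm]
      exact Complex.norm_exp_ofReal_mul_I x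
    have h2 : ‖(1 : ℂ) + I * x - (x : ℂ) ^ 2 / 2‖ ≤ 1 + |x| + x ^ 2 / 2 := by
      refine (norm_sub_le _ _).trans (add_le_add ((norm_add_le _ _).trans ?_) ?_)
      · simp
      · simp
    have h3 : |x| ≤ x ^ 2 := by
      rw [← sq_abs]
      nlinarith
    have h4 : 1 ≤ x ^ 2 := by
      rw [← sq_abs]
      nlinarith
    refine (norm_sub_le _ _).trans ?_
    rw [h1]
    linarith

theorem exp_taylor_eps (x : ℝ) {ε : ℝ} (h0 : 0 < ε) (h1 : ε ≤ 1) :
    ‖cexp (I * x) - (1 + I * x - (x : ℂ) ^ 2 / 2)‖ ≤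
      ε * x ^ 2 + 4 * (if ε ≤ |x| then x ^ 2 else 0) := by
  refine (exp_taylor x).trans ?_
  have hx : 0 ≤ x ^ 2 := sq_nonneg x
  by_cases h : ε ≤ |x|
  · rw [if_pos h]
    split_ifs with h2
    · have h3 : |x| ^ 3 ≤ x ^ 2 := by
        rw [← sq_abs x]
        exact pow_le_pow_of_le_one (abs_nonneg x) h2 (by norm_num)
      nlinarith
    · nlinarith
  · rw [if_neg h]
    push Not at h
    have h2 : |x| ≤ 1 := by linarith
    rw [if_pos h2]
    have h3 : |x| ^ 3 ≤ ε * x ^ 2 := by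
      rw [← sq_abs x, pow_succ' |x| 2]
      exact mul_le_mul_of_nonneg_right h.le (by positivity)
    linarith

theorem exp_neg_bound {t : ℝ} (ht : 0 ≤ t) : |Real.exp (-t) - (1 - t)| ≤ t ^ 2 := by
  rw [abs_le]
  have h1 := Real.add_one_le_exp (-t)
  have h2 := Real.add_one_le_exp t
  constructor
  · nlinarith
  · have h3 : Real.exp (-t) ≤ 1 / (1 + t) := by
      rw [Real.exp_neg, ← one_div]
      exact one_div_le_one_div_of_le (by linarith) (by linarith)
    have h4 : 1 / (1 + t) ≤ 1 - t + t ^ 2 := by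
      rw [div_le_iff₀ (by linarith)]
      nlinarith [pow_nonneg ht 3]
    linarith

theorem char_step {D : Type} [Fintype D] [Nonempty D] (x : D → ℝ) (hx : ∑ e, x e = 0) {ε s : ℝ}
    (h0 : 0 < ε) (h1 : ε ≤ 1)
    (hv : (∑ e, x e ^ 2) / (Fintype.card D : ℝ) ≤ s + 1) :
    ‖(Fintype.card D : ℝ)⁻¹ • ∑ e, cexp (I * x e)
        - cexp (-(((∑ e, x e ^ 2) / (Fintype.card D : ℝ) / 2 : ℝ) : ℂ))‖ ≤
      2 * ε * ((∑ e, x e ^ 2) / (Fintype.card D : ℝ)) +
        (s + 5) * ((∑ e, if ε ≤ |x e| then x e ^ 2 else 0) / (Fintype.card D : ℝ)) := by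
  set m : ℝ := (Fintype.card D : ℝ) with hm
  have hm0 : 0 < m := by
    rw [hm]
    exact_mod_cast Fintype.card_pos
  set v : ℝ := (∑ e, x e ^ 2) / m with hvdef
  set L : ℝ := (∑ e, if ε ≤ |x e| then x e ^ 2 else 0) / m with hL
  have hv0 : 0 ≤ v := by
    rw [hvdef]
    exact div_nonneg (Finset.sum_nonneg fun e _ => sq_nonneg _) hm0.le
  have hL0 : 0 ≤ L := by
    rw [hL]
    refine div_nonneg (Finset.sum_nonneg fun e _ => ?_) hm0.le
    split_ifs
    · exact sq_nonneg _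
    · exact le_rfl
  have hvL : v ≤ ε ^ 2 + L := by
    rw [hvdef, hL, div_le_iff₀ hm0, add_mul, div_mul_cancel₀ _ hm0.ne']
    have : ε ^ 2 * m = ∑ _e : D, ε ^ 2 := by
      rw [Finset.sum_const, Finset.card_univ, nsmul_eq_mul, hm]
      ring
    rw [this, ← Finset.sum_add_distrib]
    refine Finset.sum_le_sum fun e _ => ?_
    split_ifs with h
    · nlinarith [sq_nonneg ε]
    · push Not at h
      rw [add_zero, ← sq_abs]
      exact pow_le_pow_left₀ (abs_nonneg _) h.le 2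
  -- first part
  have hA : (m : ℝ)⁻¹ • ∑ e, cexp (I * x e) - (1 - (v : ℂ) / 2)
      = (m : ℝ)⁻¹ • ∑ e, (cexp (I * x e) - (1 + I * x e - (x e : ℂ) ^ 2 / 2)) := by
    rw [Finset.sum_sub_distrib, Finset.sum_sub_distrib, Finset.sum_add_distrib,
      ← Finset.mul_sum, ← Complex.ofReal_sum, hx, ← Finset.sum_div]
    simp only [Finset.sum_const, Finset.card_univ, nsmul_eq_mul, mul_one, Complex.ofReal_zero,
      mul_zero, add_zero, Complex.real_smul]
    have h2 : ((Fintype.card D : ℕ) : ℂ) = ((m : ℝ) : ℂ) := by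
      rw [hm]
      simp
    rw [h2, hvdef]
    have h3 : ((m : ℝ) : ℂ) ≠ 0 := by
      exact_mod_cast hm0.ne'
    push_cast
    field_simp
  have hB : ‖(m : ℝ)⁻¹ • ∑ e, cexp (I * x e) - (1 - (v : ℂ) / 2)‖ ≤ ε * v + 4 * L := by
    rw [hA, norm_smul, Real.norm_eq_abs, abs_of_pos (inv_pos.2 hm0)]
    have h2 : ‖∑ e, (cexp (I * x e) - (1 + I * x e - (x e : ℂ) ^ 2 / 2))‖ ≤
        ∑ e, (ε * x e ^ 2 + 4 * (if ε ≤ |x e| then x e ^ 2 else 0)) :=
      (norm_sum_le _ _).trans (Finset.sum_le_sum fun e _ => exp_taylor_eps (x e) h0 h1)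
    refine (mul_le_mul_of_nonneg_left h2 (inv_pos.2 hm0).le).trans (le_of_eq ?_)
    rw [Finset.sum_add_distrib, ← Finset.mul_sum, ← Finset.mul_sum, hvdef, hL]
    field_simp
  have hC : ‖(1 - (v : ℂ) / 2) - cexp (-((v / 2 : ℝ) : ℂ))‖ ≤ (v / 2) ^ 2 := by
    have h2 : (1 - (v : ℂ) / 2) - cexp (-((v / 2 : ℝ) : ℂ))
        = (((1 - v / 2) - Real.exp (-(v / 2)) : ℝ) : ℂ) := by
      push_cast
      ring
    rw [h2, Complex.norm_real, Real.norm_eq_abs, abs_sub_comm]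
    exact exp_neg_bound (by linarith)
  have hD : (m : ℝ)⁻¹ • ∑ e, cexp (I * x e) - cexp (-((v / 2 : ℝ) : ℂ))
      = ((m : ℝ)⁻¹ • ∑ e, cexp (I * x e) - (1 - (v : ℂ) / 2)) +
        ((1 - (v : ℂ) / 2) - cexp (-((v / 2 : ℝ) : ℂ))) := by ring
  rw [hD]
  refine (norm_add_le _ _).trans ((add_le_add hB hC).trans ?_)
  have h2 : v * v ≤ v * ε ^ 2 + (s + 1) * L := by
    have := mul_le_mul_of_nonneg_left hvL hv0
    have h3 : v * L ≤ (s + 1) * L := mul_le_mul_of_nonneg_right hv hL0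
    nlinarith
  have h3 : v * ε ^ 2 ≤ v * ε := by
    refine mul_le_mul_of_nonneg_left ?_ hv0
    nlinarith
  nlinarith

end Pool.Agent.Helper11.Qip
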