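import Pool.Agent.Helper11.Qip.Tower
import Pool.Agent.Helper11.Qip.Ineq

set_option autoImplicit false

/-!
One row of the martingale central limit theorem (packet G).
-/

open MeasureTheory ProbabilityTheory Filter Topology Complex

namespace Pool.Agent.Helper11.Qip

open Pool.Agent.Helper58.Qip

section Defs

variable {D : Type} [Fintype D] (ξ : ℕ → (ℕ → D) → D → ℝ) (s : ℝ)

/-- Conditional variance. -/
noncomputable def vv (k : ℕ) (u : ℕ → D) : ℝ := (∑ e, ξ k u e ^ 2) / (Fintype.card D : ℝ)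

open Classical in
/-- The indicator that the total variance up to time `k` is small. -/
noncomputable def JJ (k : ℕ) (u : ℕ → D) : ℝ :=
  if ∑ j ∈ Finset.range (k + 1), vv ξ j u ≤ s + 1 then 1 else 0

/-- The stopped differences. -/
noncomputable def xx (k : ℕ) (u : ℕ → D) (e : D) : ℝ := JJ ξ s k u * ξ k u e

/-- The stopped conditional variance, summed. -/
noncomputable def VV (k : ℕ) (u : ℕ → D) : ℝ := ∑ j ∈ Finset.range k, vv (xx ξ s) j u

/-- The stopped sum. -/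
noncomputable def SS (k : ℕ) (u : ℕ → D) : ℝ := ∑ j ∈ Finset.range k, xx ξ s j u (u j)

/-- The exponential process. -/
noncomputable def ZZ (k : ℕ) (u : ℕ → D) : ℂ := cexp (I * SS ξ s k u + (VV ξ s k u / 2 : ℝ))

/-- The conditional Lindeberg term. -/
noncomputable def LL (ε : ℝ) (k : ℕ) (u : ℕ → D) : ℝ :=
  (∑ e, if ε ≤ |ξ k u e| then ξ k u e ^ 2 else 0) / (Fintype.card D : ℝ)

end Defs

section Facts

variable {D : Type} [Fintype D] [Nonempty D] {ξ : ℕ → (ℕ → D) → D → ℝ} {s : ℝ}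

theorem vv_nonneg (ξ : ℕ → (ℕ → D) → D → ℝ) (k : ℕ) (u : ℕ → D) : 0 ≤ vv ξ k u := by
  unfold vv
  positivity

theorem LL_nonneg (ξ : ℕ → (ℕ → D) → D → ℝ) (ε : ℝ) (k : ℕ) (u : ℕ → D) : 0 ≤ LL ξ ε k u := by
  unfold LL
  refine div_nonneg (Finset.sum_nonneg fun e _ => ?_) (by positivity)
  split_ifs
  · exact sq_nonneg _
  · exact le_rfl

theorem LL_le_vv (ξ : ℕ → (ℕ → D) → D → ℝ) (ε : ℝ) (k : ℕ) (u : ℕ → D) :
    LL ξ ε k u ≤ vv ξ k u := by
  unfold LL vv
  refine div_le_div_of_nonneg_right (Finset.sum_le_sum fun e _ => ?_) (by positivity)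
  split_ifs
  · exact le_rfl
  · exact sq_nonneg _

omit [Nonempty D] in
theorem JJ_cases (ξ : ℕ → (ℕ → D) → D → ℝ) (s : ℝ) (k : ℕ) (u : ℕ → D) :
    JJ ξ s k u = 0 ∨ JJ ξ s k u = 1 := by
  unfold JJ
  split_ifs
  · exact Or.inr rfl
  · exact Or.inl rfl

omit [Nonempty D] in
theorem vv_xx (k : ℕ) (u : ℕ → D) : vv (xx ξ s) k u = JJ ξ s k u * vv ξ k u := by
  rcases JJ_cases ξ s k u with h | h <;> simp [vv, xx, h]

theorem vv_xx_le (k : ℕ) (u : ℕ → D) : vv (xx ξ s) k u ≤ vv ξ k u := by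
  rw [vv_xx]
  rcases JJ_cases ξ s k u with h | h
  · rw [h, zero_mul]
    exact vv_nonneg ξ k u
  · rw [h, one_mul]

theorem LL_xx_le (ε : ℝ) (k : ℕ) (u : ℕ → D) :
    LL (xx ξ s) ε k u ≤ LL ξ ε k u := by
  rcases JJ_cases ξ s k u with h | h
  · have : LL (xx ξ s) ε k u = 0 := by
      simp [LL, xx, h]
    rw [this]
    exact LL_nonneg ξ ε k u
  · have : LL (xx ξ s) ε k u = LL ξ ε k u := by
      simp [LL, xx, h]
    rw [this]

theorem VV_nonneg (k : ℕ) (u : ℕ → D) : 0 ≤ VV ξ s k u :=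
  Finset.sum_nonneg fun j _ => vv_nonneg _ j u

theorem VV_le (hs : 0 ≤ s) (k : ℕ) (u : ℕ → D) : VV ξ s k u ≤ s + 1 := by
  induction k with
  | zero =>
    simp only [VV, Finset.range_zero, Finset.sum_empty]
    linarith
  | succ k ih =>
    have h1 : VV ξ s (k + 1) u = VV ξ s k u + vv (xx ξ s) k u := by
      rw [VV, Finset.sum_range_succ, VV]
    by_cases h : ∑ j ∈ Finset.range (k + 1), vv ξ j u ≤ s + 1
    · refine le_trans ?_ h
      exact Finset.sum_le_sum fun j _ => vv_xx_le j u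
    · have h2 : JJ ξ s k u = 0 := if_neg h
      rw [h1, vv_xx, h2, zero_mul, add_zero]
      exact ih

theorem JJ_eq_one {n : ℕ} {u : ℕ → D} (h : ∑ j ∈ Finset.range n, vv ξ j u ≤ s + 1) {k : ℕ}
    (hk : k < n) : JJ ξ s k u = 1 := by
  refine if_pos (le_trans ?_ h)
  refine Finset.sum_le_sum_of_subset_of_nonneg ?_ fun j _ _ => vv_nonneg ξ j u
  exact Finset.range_mono hk

theorem SS_eq {n : ℕ} {u : ℕ → D} (h : ∑ j ∈ Finset.range n, vv ξ j u ≤ s + 1) :
    SS ξ s n u = ∑ j ∈ Finset.range n, ξ j u (u j) := by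
  refine Finset.sum_congr rfl fun j hj => ?_
  rw [xx, JJ_eq_one h (Finset.mem_range.1 hj), one_mul]

theorem VV_eq {n : ℕ} {u : ℕ → D} (h : ∑ j ∈ Finset.range n, vv ξ j u ≤ s + 1) :
    VV ξ s n u = ∑ j ∈ Finset.range n, vv ξ j u := by
  refine Finset.sum_congr rfl fun j hj => ?_
  rw [vv_xx, JJ_eq_one h (Finset.mem_range.1 hj), one_mul]

omit [Nonempty D] in
theorem norm_ZZ (k : ℕ) (u : ℕ → D) : ‖ZZ ξ s k u‖ = Real.exp (VV ξ s k u / 2) := by
  rw [ZZ, Complex.norm_exp]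
  simp

theorem norm_ZZ_le (hs : 0 ≤ s) (k : ℕ) (u : ℕ → D) : ‖ZZ ξ s k u‖ ≤ Real.exp ((s + 1) / 2) := by
  rw [norm_ZZ]
  exact Real.exp_le_exp.2 (by linarith [VV_le (ξ := ξ) hs k u])

/-! ### Dependence -/

omit [Nonempty D] in
theorem dep_vv (hξ : ∀ k, Dep k (ξ k)) (k : ℕ) : Dep k (vv ξ k) :=
  (hξ k).comp fun f => (∑ e, f e ^ 2) / (Fintype.card D : ℝ)

omit [Nonempty D] in
theorem dep_LL (hξ : ∀ k, Dep k (ξ k)) (ε : ℝ) (k : ℕ) : Dep k (LL ξ ε k) :=
  (hξ k).comp fun f => (∑ e, if ε ≤ |f e| then f e ^ 2 else 0) / (Fintype.card D : ℝ)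

omit [Nonempty D] in
theorem dep_JJ (hξ : ∀ k, Dep k (ξ k)) (k : ℕ) : Dep k (JJ ξ s k) := by
  classical
  have h1 : Dep k fun u => ∑ j ∈ Finset.range (k + 1), vv ξ j u :=
    dep_sum _ fun j hj => (dep_vv hξ j).mono (Nat.lt_succ_iff.1 (Finset.mem_range.1 hj))
  intro u u' h
  simp only [JJ, h1 u u' h]

theorem dep_xx (hξ : ∀ k, Dep k (ξ k)) (k : ℕ) : Dep k (xx ξ s k) :=
  (dep_JJ hξ k).comp₂ (hξ k) fun a f e => a * f e

theorem dep_VV (hξ : ∀ k, Dep k (ξ k)) {k l : ℕ} (h : k ≤ l + 1) : Dep l (VV ξ s k) :=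
  dep_sum _ fun j hj => (dep_vv (dep_xx hξ) j).mono (by
    have := Finset.mem_range.1 hj
    omega)

theorem dep_SS (hξ : ∀ k, Dep k (ξ k)) (k : ℕ) : Dep k (SS ξ s k) := by
  refine dep_sum _ fun j hj => ?_
  have hj' := Finset.mem_range.1 hj
  intro u u' h
  change xx ξ s j u (u j) = xx ξ s j u' (u' j)
  rw [dep_xx hξ j u u' fun i hi => h i (hi.trans hj'), h j hj']

theorem dep_ZZ (hξ : ∀ k, Dep k (ξ k)) (k : ℕ) : Dep k (ZZ ξ s k) :=
  (dep_SS hξ k).comp₂ (dep_VV hξ (Nat.le_succ k)) fun a b => cexp (I * a + (b / 2 : ℝ))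

omit [Fintype D] [Nonempty D] in
theorem dep_update {E : Type*} {k l : ℕ} {F : (ℕ → D) → E} (h : Dep k F) (hkl : k ≤ l)
    (u : ℕ → D) (e : D) : F (Function.update u l e) = F u := by
  apply h
  intro i hi
  rw [Function.update_of_ne (by omega)]

theorem ZZ_succ_update (hξ : ∀ k, Dep k (ξ k)) (k : ℕ) (u : ℕ → D) (e : D) :
    ZZ ξ s (k + 1) (Function.update u k e) =
      ZZ ξ s k u * cexp ((vv (xx ξ s) k u / 2 : ℝ)) * cexp (I * xx ξ s k u e) := by
  have h1 : SS ξ s (k + 1) (Function.update u k e) = SS ξ s k u + xx ξ s k u e := by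
    rw [SS, Finset.sum_range_succ, Function.update_self,
      dep_update (dep_xx hξ k) le_rfl]
    congr 1
    exact dep_update (dep_SS hξ k) le_rfl u e
  have h2 : VV ξ s (k + 1) (Function.update u k e) = VV ξ s k u + vv (xx ξ s) k u := by
    rw [dep_update (dep_VV hξ le_rfl) le_rfl, VV, Finset.sum_range_succ, VV]
  rw [ZZ, h1, h2, ZZ, ← Complex.exp_add, ← Complex.exp_add]
  congr 1
  push_cast
  ring

variable [MeasurableSpace D] [MeasurableSingletonClass D]

theorem step (hξ : ∀ k, Dep k (ξ k)) (hsum : ∀ k u, ∑ e, ξ k u e = 0) (hs : 0 ≤ s) {ε : ℝ}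
    (h0 : 0 < ε) (h1 : ε ≤ 1) (k : ℕ) :
    ‖∫ u, ZZ ξ s (k + 1) u ∂unif D - ∫ u, ZZ ξ s k u ∂unif D‖ ≤
      ∫ u, Real.exp ((s + 1) / 2) *
        (2 * ε * vv (xx ξ s) k u + (s + 5) * LL (xx ξ s) ε k u) ∂unif D := by
  have hdv := dep_vv (dep_xx (s := s) hξ) k
  have hdL := dep_LL (dep_xx (s := s) hξ) ε k
  have hdx := dep_xx (s := s) hξ k
  have hdZ := dep_ZZ (s := s) hξ k
  have hdZ' := dep_ZZ (s := s) hξ (k + 1)
  rw [tower k hdZ']
  have e1 : ∀ u, (Fintype.card D : ℝ)⁻¹ • ∑ e, ZZ ξ s (k + 1) (Function.update u k e)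
      = ZZ ξ s k u * cexp ((vv (xx ξ s) k u / 2 : ℝ)) *
        ((Fintype.card D : ℝ)⁻¹ • ∑ e, cexp (I * xx ξ s k u e)) := by
    intro u
    rw [mul_smul_comm, Finset.mul_sum]
    congr 1
    exact Finset.sum_congr rfl fun e _ => ZZ_succ_update hξ k u e
  have hd1 : Dep k fun u => (Fintype.card D : ℝ)⁻¹ •
      ∑ e, ZZ ξ s (k + 1) (Function.update u k e) := by
    simp only [e1]
    exact (hdZ.comp₂ hdv fun a b => a * cexp ((b / 2 : ℝ))).comp₂ hdx
      fun a f => a * ((Fintype.card D : ℝ)⁻¹ • ∑ e, cexp (I * f e))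
  have hdR : Dep k fun u => Real.exp ((s + 1) / 2) *
        (2 * ε * vv (xx ξ s) k u + (s + 5) * LL (xx ξ s) ε k u) :=
    hdv.comp₂ hdL fun a b => Real.exp ((s + 1) / 2) * (2 * ε * a + (s + 5) * b)
  rw [← integral_sub hd1.integrable hdZ.integrable]
  refine (norm_integral_le_integral_norm _).trans ?_
  refine integral_mono ((hd1.comp₂ hdZ fun a b => ‖a - b‖).integrable) hdR.integrable fun u => ?_
  have hV : VV ξ s (k + 1) u = VV ξ s k u + vv (xx ξ s) k u := by
    rw [VV, Finset.sum_range_succ, VV]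
  have hVle := VV_le (ξ := ξ) hs (k + 1) u
  have hvle : vv (xx ξ s) k u ≤ s + 1 := by
    have := VV_nonneg (ξ := ξ) (s := s) k u
    linarith
  have hxs : ∑ e, xx ξ s k u e = 0 := by
    simp only [xx]
    rw [← Finset.mul_sum, hsum, mul_zero]
  have e2 : (Fintype.card D : ℝ)⁻¹ • ∑ e, ZZ ξ s (k + 1) (Function.update u k e) - ZZ ξ s k u
      = ZZ ξ s k u * cexp ((vv (xx ξ s) k u / 2 : ℝ)) *
        ((Fintype.card D : ℝ)⁻¹ • ∑ e, cexp (I * xx ξ s k u e)
          - cexp (-((vv (xx ξ s) k u / 2 : ℝ) : ℂ))) := by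
    rw [e1, mul_sub, mul_assoc (ZZ ξ s k u) _ (cexp (-((vv (xx ξ s) k u / 2 : ℝ) : ℂ))),
      ← Complex.exp_add, add_neg_cancel, Complex.exp_zero, mul_one]
  change ‖(Fintype.card D : ℝ)⁻¹ • ∑ e, ZZ ξ s (k + 1) (Function.update u k e) - ZZ ξ s k u‖ ≤ _
  rw [e2, norm_mul]
  have h3 : ‖ZZ ξ s k u * cexp ((vv (xx ξ s) k u / 2 : ℝ))‖ ≤ Real.exp ((s + 1) / 2) := by
    rw [norm_mul, norm_ZZ, Complex.norm_exp, Complex.ofReal_re, ← Real.exp_add]
    exact Real.exp_le_exp.2 (by linarith)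
  exact mul_le_mul h3 (char_step _ hxs h0 h1 hvle) (norm_nonneg _) (Real.exp_pos _).le

/-- Expectation of a function bounded by `a`, and by `a + b` on the set `p`. -/
theorem integral_le_of_bound {k : ℕ} {f : (ℕ → D) → ℝ} (hf : Dep k f) {p : (ℕ → D) → Prop}
    (hp : Dep k p) {a b : ℝ} (h1 : ∀ u, ¬ p u → f u ≤ a) (h2 : ∀ u, p u → f u ≤ a + b) :
    ∫ u, f u ∂unif D ≤ a + b * (unif D).real {u | p u} := by
  classical
  have hI : Integrable (Set.indicator {u | p u} fun _ => b) (unif D) :=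
    (integrable_const b).indicator hp.measurableSet
  have h3 : ∫ u, (a + Set.indicator {u | p u} (fun _ => b) u) ∂unif D
      = a + b * (unif D).real {u | p u} := by
    rw [integral_add (integrable_const a) hI, integral_indicator_const b hp.measurableSet]
    simp [mul_comm]
  rw [← h3]
  refine integral_mono hf.integrable ((integrable_const a).add hI) fun u => ?_
  by_cases h : p u
  · have : Set.indicator {u | p u} (fun _ => b) u = b := Set.indicator_of_mem h _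
    change f u ≤ a + Set.indicator {u | p u} (fun _ => b) u
    rw [this]
    exact h2 u h
  · have : Set.indicator {u | p u} (fun _ => b) u = 0 := Set.indicator_of_notMem h _
    change f u ≤ a + Set.indicator {u | p u} (fun _ => b) u
    rw [this, add_zero]
    exact h1 u h

theorem norm_ZZ_sub_one (hξ : ∀ k, Dep k (ξ k)) (hsum : ∀ k u, ∑ e, ξ k u e = 0) (hs : 0 ≤ s)
    {ε δ : ℝ} (h0 : 0 < ε) (h1 : ε ≤ 1) (hδ : 0 < δ) (n : ℕ) :
    ‖∫ u, ZZ ξ s n u ∂unif D - 1‖ ≤ Real.exp ((s + 1) / 2) * (2 * ε * (s + 1) + (s + 5) *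
      (δ + (s + 1) * (unif D).real {u | δ ≤ ∑ k ∈ Finset.range n, LL ξ ε k u})) := by
  have hdv := fun k => dep_vv (dep_xx (s := s) hξ) k
  have hdL := fun k => dep_LL (dep_xx (s := s) hξ) ε k
  set M := Real.exp ((s + 1) / 2) with hM
  have hM0 : 0 < M := Real.exp_pos _
  have hR : ∀ k, Dep k fun u => M * (2 * ε * vv (xx ξ s) k u + (s + 5) * LL (xx ξ s) ε k u) :=
    fun k => (hdv k).comp₂ (hdL k) fun a b => M * (2 * ε * a + (s + 5) * b)
  have hind : ∀ m : ℕ, ‖∫ u, ZZ ξ s m u ∂unif D - 1‖ ≤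
      ∫ u, ∑ k ∈ Finset.range m,
        (M * (2 * ε * vv (xx ξ s) k u + (s + 5) * LL (xx ξ s) ε k u)) ∂unif D := by
    intro m
    induction m with
    | zero =>
      have : ∀ u : ℕ → D, ZZ ξ s 0 u = 1 := by
        intro u
        simp [ZZ, SS, VV]
      simp [this]
    | succ m ih =>
      have h2 : ∫ u, ZZ ξ s (m + 1) u ∂unif D - 1 =
          (∫ u, ZZ ξ s (m + 1) u ∂unif D - ∫ u, ZZ ξ s m u ∂unif D) +
            (∫ u, ZZ ξ s m u ∂unif D - 1) := by ring
      rw [h2]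
      refine (norm_add_le _ _).trans ((add_le_add (step hξ hsum hs h0 h1 m) ih).trans
        (le_of_eq ?_))
      simp only [Finset.sum_range_succ]
      rw [integral_add, add_comm]
      · exact (dep_sum (k := m) _ fun k hk =>
          (hR k).mono (Finset.mem_range.1 hk).le).integrable
      · exact (hR m).integrable
  refine (hind n).trans ?_
  have h3 : ∀ u : ℕ → D, ∑ k ∈ Finset.range n,
      (M * (2 * ε * vv (xx ξ s) k u + (s + 5) * LL (xx ξ s) ε k u))
      = M * (2 * ε * VV ξ s n u + (s + 5) * ∑ k ∈ Finset.range n, LL (xx ξ s) ε k u) := by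
    intro u
    rw [← Finset.mul_sum, Finset.sum_add_distrib, ← Finset.mul_sum, ← Finset.mul_sum, VV]
  simp only [h3]
  have hdS : Dep n fun u => M * (2 * ε * VV ξ s n u +
      (s + 5) * ∑ k ∈ Finset.range n, LL (xx ξ s) ε k u) :=
    (dep_VV (s := s) hξ (Nat.le_succ n)).comp₂
      (dep_sum (k := n) (Finset.range n) fun k hk => (hdL k).mono (Finset.mem_range.1 hk).le)
      fun a b => M * (2 * ε * a + (s + 5) * b)
  have hdp : Dep n fun u => δ ≤ ∑ k ∈ Finset.range n, LL ξ ε k u :=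
    (dep_sum (k := n) (Finset.range n) fun k hk =>
      (dep_LL hξ ε k).mono (Finset.mem_range.1 hk).le).comp fun a => δ ≤ a
  have h4 := integral_le_of_bound hdS hdp
    (a := M * (2 * ε * (s + 1) + (s + 5) * δ)) (b := M * ((s + 5) * (s + 1))) ?_ ?_
  · refine h4.trans (le_of_eq ?_)
    ring
  · intro u hu
    push Not at hu
    have h5 := VV_le (ξ := ξ) hs n u
    have h6 : ∑ k ∈ Finset.range n, LL (xx ξ s) ε k u ≤ δ :=
      (Finset.sum_le_sum fun k _ => LL_xx_le ε k u).trans hu.le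
    refine mul_le_mul_of_nonneg_left (add_le_add ?_ ?_) hM0.le
    · exact mul_le_mul_of_nonneg_left h5 (by linarith)
    · exact mul_le_mul_of_nonneg_left h6 (by linarith)
  · intro u _
    have h5 := VV_le (ξ := ξ) hs n u
    have h6 : ∑ k ∈ Finset.range n, LL (xx ξ s) ε k u ≤ s + 1 :=
      (Finset.sum_le_sum fun k _ => LL_le_vv (xx ξ s) ε k u).trans h5
    rw [← mul_add]
    refine mul_le_mul_of_nonneg_left ?_ hM0.le
    have h7 := mul_le_mul_of_nonneg_left h5 (show 0 ≤ 2 * ε by linarith)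
    have h8 := mul_le_mul_of_nonneg_left h6 (show 0 ≤ s + 5 by linarith)
    have h9 : 0 ≤ (s + 5) * δ := by positivity
    linarith

theorem row (hξ : ∀ k, Dep k (ξ k)) (hsum : ∀ k u, ∑ e, ξ k u e = 0) (hs : 0 ≤ s)
    {ε δ : ℝ} (h0 : 0 < ε) (h1 : ε ≤ 1) (hδ : 0 < δ) (hδ1 : δ ≤ 1) (n : ℕ) :
    ‖∫ u, cexp (I * (∑ k ∈ Finset.range n, ξ k u (u k) : ℝ)) ∂unif D
        - cexp (-(1 / 2) * (s : ℂ))‖ ≤
      2 * (unif D).real {u | δ ≤ |∑ k ∈ Finset.range n, vv ξ k u - s|} +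
      Real.exp ((s + 1) / 2) * (δ + (s + 1) *
        (unif D).real {u | δ ≤ |∑ k ∈ Finset.range n, vv ξ k u - s|}) +
      Real.exp ((s + 1) / 2) * (2 * ε * (s + 1) + (s + 5) *
        (δ + (s + 1) * (unif D).real {u | δ ≤ ∑ k ∈ Finset.range n, LL ξ ε k u})) := by
  set M := Real.exp ((s + 1) / 2) with hM
  have hM0 : 0 < M := Real.exp_pos _
  have hdW : Dep n fun u => ∑ k ∈ Finset.range n, vv ξ k u :=
    dep_sum _ fun k hk => (dep_vv hξ k).mono (Finset.mem_range.1 hk).le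
  have hdp : Dep n fun u => δ ≤ |∑ k ∈ Finset.range n, vv ξ k u - s| :=
    hdW.comp fun a => δ ≤ |a - s|
  have hdE : Dep n fun u => cexp (I * (∑ k ∈ Finset.range n, ξ k u (u k) : ℝ)) := by
    refine Dep.comp (F := fun u : ℕ → D => ∑ k ∈ Finset.range n, ξ k u (u k)) ?_
      fun a => cexp (I * (a : ℝ))
    refine dep_sum _ fun j hj => ?_
    have hj' := Finset.mem_range.1 hj
    intro u u' h
    change ξ j u (u j) = ξ j u' (u' j)
    rw [hξ j u u' fun i hi => h i (hi.trans hj'), h j hj']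
  have hdS := dep_SS (s := s) hξ n
  have hdV := dep_VV (s := s) hξ (Nat.le_succ n)
  have hdZ := dep_ZZ (s := s) hξ n
  have hdE' : Dep n fun u => cexp (I * SS ξ s n u) := hdS.comp fun a => cexp (I * (a : ℝ))
  -- first term
  have t1 : ‖∫ u, cexp (I * (∑ k ∈ Finset.range n, ξ k u (u k) : ℝ)) ∂unif D
      - ∫ u, cexp (I * SS ξ s n u) ∂unif D‖ ≤
      2 * (unif D).real {u | δ ≤ |∑ k ∈ Finset.range n, vv ξ k u - s|} := by
    rw [← integral_sub hdE.integrable hdE'.integrable]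
    refine (norm_integral_le_integral_norm _).trans ?_
    have h4 := integral_le_of_bound (hdE.comp₂ hdE' fun a b => ‖a - b‖) hdp
      (a := 0) (b := 2) ?_ ?_
    · simpa using h4
    · intro u hu
      push Not at hu
      have h5 : ∑ k ∈ Finset.range n, vv ξ k u ≤ s + 1 := by
        have := (abs_lt.1 hu).2
        linarith
      rw [SS_eq h5]
      simp
    · intro u _
      refine (norm_sub_le _ _).trans ?_
      have e1 : ∀ x : ℝ, ‖cexp (I * x)‖ = 1 := by
        intro x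
        rw [mul_comm]
        exact Complex.norm_exp_ofReal_mul_I x
      rw [e1, e1]
      norm_num
  -- second term
  have t2 : ‖∫ u, cexp (I * SS ξ s n u) ∂unif D
      - (∫ u, ZZ ξ s n u ∂unif D) * cexp (-(1 / 2) * (s : ℂ))‖ ≤
      M * (δ + (s + 1) *
        (unif D).real {u | δ ≤ |∑ k ∈ Finset.range n, vv ξ k u - s|}) := by
    have hdZ' : Dep n fun u => ZZ ξ s n u * cexp (-(1 / 2) * (s : ℂ)) :=
      hdZ.comp fun a => a * cexp (-(1 / 2) * (s : ℂ))
    rw [← integral_mul_const, ← integral_sub hdE'.integrable hdZ'.integrable]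
    refine (norm_integral_le_integral_norm _).trans ?_
    have hpt : ∀ u : ℕ → D, ‖cexp (I * SS ξ s n u) - ZZ ξ s n u * cexp (-(1 / 2) * (s : ℂ))‖ ≤
        M * |VV ξ s n u - s| := by
      intro u
      have e1 : cexp (I * SS ξ s n u) - ZZ ξ s n u * cexp (-(1 / 2) * (s : ℂ))
          = ZZ ξ s n u * ((Real.exp (-(VV ξ s n u / 2)) - Real.exp (-(s / 2)) : ℝ) : ℂ) := by
        rw [Complex.ofReal_sub, mul_sub, Complex.ofReal_exp, Complex.ofReal_exp, ZZ,
          ← Complex.exp_add, ← Complex.exp_add, ← Complex.exp_add]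
        congr 2
        · push_cast
          ring
        · push_cast
          ring
      rw [e1, norm_mul, Complex.norm_real, Real.norm_eq_abs]
      refine mul_le_mul (norm_ZZ_le hs n u) ?_ (abs_nonneg _) hM0.le
      have hlip : ∀ a b : ℝ, 0 ≤ a → a ≤ b → |Real.exp (-(a / 2)) - Real.exp (-(b / 2))| ≤
          b - a := by
        intro a b ha hab
        have h6 : Real.exp (-(b / 2)) ≤ Real.exp (-(a / 2)) := Real.exp_le_exp.2 (by linarith)
        rw [abs_of_nonneg (by linarith)]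
        have h7 : Real.exp (-(b / 2)) = Real.exp (-(a / 2)) * Real.exp (-((b - a) / 2)) := by
          rw [← Real.exp_add]
          congr 1
          ring
        have h8 := Real.add_one_le_exp (-((b - a) / 2))
        have h9 : Real.exp (-(a / 2)) ≤ 1 := Real.exp_le_one_iff.2 (by linarith)
        have h10 : 0 < Real.exp (-(a / 2)) := Real.exp_pos _
        have h11 : Real.exp (-((b - a) / 2)) ≤ 1 := Real.exp_le_one_iff.2 (by linarith)
        rw [h7]
        nlinarith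
      rcases le_total (VV ξ s n u) s with h | h
      · have := hlip _ _ (VV_nonneg (ξ := ξ) (s := s) n u) h
        rw [abs_sub_comm (VV ξ s n u) s, abs_of_nonneg (sub_nonneg.2 h)]
        exact this
      · have := hlip _ _ hs h
        rw [abs_sub_comm, abs_of_nonneg (sub_nonneg.2 h)]
        exact this
    have h4 := integral_le_of_bound (hdE'.comp₂ hdZ' fun a b => ‖a - b‖) hdp
      (a := M * δ) (b := M * (s + 1)) ?_ ?_
    · refine h4.trans (le_of_eq ?_)
      ring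
    · intro u hu
      push Not at hu
      refine (hpt u).trans (mul_le_mul_of_nonneg_left ?_ hM0.le)
      have h5 : ∑ k ∈ Finset.range n, vv ξ k u ≤ s + 1 := by
        have := (abs_lt.1 hu).2
        linarith
      rw [VV_eq h5]
      exact hu.le
    · intro u _
      refine (hpt u).trans ?_
      rw [← mul_add]
      refine mul_le_mul_of_nonneg_left ?_ hM0.le
      have h5 := VV_le (ξ := ξ) hs n u
      have h6 := VV_nonneg (ξ := ξ) (s := s) n u
      rw [abs_le]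
      constructor <;> linarith
  -- third term
  have t3 : ‖(∫ u, ZZ ξ s n u ∂unif D) * cexp (-(1 / 2) * (s : ℂ))
      - cexp (-(1 / 2) * (s : ℂ))‖ ≤ M * (2 * ε * (s + 1) + (s + 5) *
        (δ + (s + 1) * (unif D).real {u | δ ≤ ∑ k ∈ Finset.range n, LL ξ ε k u})) := by
    have e1 : (∫ u, ZZ ξ s n u ∂unif D) * cexp (-(1 / 2) * (s : ℂ)) - cexp (-(1 / 2) * (s : ℂ))
        = (∫ u, ZZ ξ s n u ∂unif D - 1) * cexp (-(1 / 2) * (s : ℂ)) := by ring
    have e2 : ‖cexp (-(1 / 2) * (s : ℂ))‖ ≤ 1 := by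
      rw [Complex.norm_exp]
      refine Real.exp_le_one_iff.2 ?_
      have : (-(1 / 2) * (s : ℂ)).re = -(1 / 2) * s := by
        simp
      rw [this]
      linarith
    rw [e1, norm_mul]
    refine (mul_le_of_le_one_right (norm_nonneg _) e2).trans ?_
    exact norm_ZZ_sub_one hξ hsum hs h0 h1 hδ n
  have hsplit : ∫ u, cexp (I * (∑ k ∈ Finset.range n, ξ k u (u k) : ℝ)) ∂unif D
        - cexp (-(1 / 2) * (s : ℂ)) =
      (∫ u, cexp (I * (∑ k ∈ Finset.range n, ξ k u (u k) : ℝ)) ∂unif D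
        - ∫ u, cexp (I * SS ξ s n u) ∂unif D) +
      (∫ u, cexp (I * SS ξ s n u) ∂unif D
        - (∫ u, ZZ ξ s n u ∂unif D) * cexp (-(1 / 2) * (s : ℂ))) +
      ((∫ u, ZZ ξ s n u ∂unif D) * cexp (-(1 / 2) * (s : ℂ)) - cexp (-(1 / 2) * (s : ℂ))) := by
    ring
  rw [hsplit]
  exact (norm_add₃_le).trans (add_le_add (add_le_add t1 t2) t3)

end Facts

end Pool.Agent.Helper11.Qip
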