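import Pool.Agent.Helper58.Qip.Stmts
import Pool.Agent.Helper11.Qip.Row

set_option autoImplicit false

/-!
Packet G for MP_5bf1c5_pr: a martingale central limit theorem.
-/

open MeasureTheory ProbabilityTheory Filter Topology Complex

namespace Pool.Agent.Helper11.Qip

open Pool.Agent.Helper58.Qip

theorem stmtG : Pool.Agent.Helper58.Qip.StmtG := by
  intro D _ _ _ _ N ξ s hs hξ hsum hvar hlind
  rw [Metric.tendsto_nhds]
  intro η hη
  set M := Real.exp ((s + 1) / 2) with hM
  have hM0 : 0 < M := Real.exp_pos _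
  set C : ℝ := M * (1 + 2 * (s + 1) + (s + 5)) with hC
  have hC0 : 0 < C := by positivity
  obtain ⟨κ, hκ0, hκ1, hκ⟩ : ∃ κ : ℝ, 0 < κ ∧ κ ≤ 1 ∧ C * κ < η := by
    refine ⟨min 1 (η / (2 * C)), by positivity, min_le_left _ _, ?_⟩
    have h1 : C * min 1 (η / (2 * C)) ≤ C * (η / (2 * C)) :=
      mul_le_mul_of_nonneg_left (min_le_right _ _) hC0.le
    have h2 : C * (η / (2 * C)) = η / 2 := by
      field_simp
    linarith
  set p : ℕ → ℝ := fun n => (unif D).real
      {u | κ ≤ |∑ k ∈ Finset.range (N n), vv (ξ n) k u - s|} with hp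
  set q : ℕ → ℝ := fun n => (unif D).real
      {u | κ ≤ ∑ k ∈ Finset.range (N n), LL (ξ n) κ k u} with hq
  have hp0 : Tendsto p atTop (𝓝 0) := hvar κ hκ0
  have hq0 : Tendsto q atTop (𝓝 0) := hlind κ κ hκ0 hκ0
  have h1 : Tendsto (fun n => 2 * p n + M * (κ + (s + 1) * p n) +
      M * (2 * κ * (s + 1) + (s + 5) * (κ + (s + 1) * q n))) atTop (𝓝 (C * κ)) := by
    have h2 := ((hp0.const_mul 2).add (((hp0.const_mul (s + 1)).const_add κ).const_mul M)).add
      (((((hq0.const_mul (s + 1)).const_add κ).const_mul (s + 5)).const_add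
        (2 * κ * (s + 1))).const_mul M)
    have h3 : 2 * 0 + M * (κ + (s + 1) * 0) +
        M * (2 * κ * (s + 1) + (s + 5) * (κ + (s + 1) * 0)) = C * κ := by
      rw [hC]
      ring
    rwa [h3] at h2
  filter_upwards [h1.eventually_lt_const hκ] with n hn
  rw [dist_eq_norm]
  exact (row (hξ n) (hsum n) hs hκ0 hκ1 hκ0 hκ1 (N n)).trans_lt hn

end Pool.Agent.Helper11.Qip
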