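import Pool.Agent.Helper58.Qip.Base

set_option autoImplicit false

/-!
Functions of finitely many coordinates of an i.i.d. uniform sequence (for packet G).
-/

open MeasureTheory ProbabilityTheory Filter Topology

namespace Pool.Agent.Helper11.Qip

open Pool.Agent.Helper58.Qip

variable {D : Type} [Fintype D] [Nonempty D] [MeasurableSpace D] [MeasurableSingletonClass D]

instance : IsProbabilityMeasure (unif D) := by
  unfold unif
  infer_instance

/-- `F` depends only on the first `k` coordinates. -/
def Dep {E : Type*} (k : ℕ) (F : (ℕ → D) → E) : Prop :=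
  ∀ u u', (∀ i, i < k → u i = u' i) → F u = F u'

omit [Fintype D] [Nonempty D] [MeasurableSpace D] [MeasurableSingletonClass D] in
theorem Dep.mono {E : Type*} {k l : ℕ} {F : (ℕ → D) → E} (h : Dep k F) (hkl : k ≤ l) : Dep l F :=
  fun u u' huu => h u u' fun i hi => huu i (lt_of_lt_of_le hi hkl)

omit [Fintype D] [Nonempty D] [MeasurableSpace D] [MeasurableSingletonClass D] in
theorem Dep.comp {E E' : Type*} {k : ℕ} {F : (ℕ → D) → E} (h : Dep k F) (g : E → E') :
    Dep k fun u => g (F u) := fun u u' huu => congrArg g (h u u' huu)

omit [Fintype D] [Nonempty D] [MeasurableSpace D] [MeasurableSingletonClass D] in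
theorem Dep.comp₂ {E E' E'' : Type*} {k : ℕ} {F : (ℕ → D) → E} {F' : (ℕ → D) → E'} (h : Dep k F)
    (h' : Dep k F') (g : E → E' → E'') : Dep k fun u => g (F u) (F' u) :=
  fun u u' huu => congrArg₂ g (h u u' huu) (h' u u' huu)

omit [Fintype D] [Nonempty D] [MeasurableSpace D] [MeasurableSingletonClass D] in
theorem dep_sum {E ι : Type*} [AddCommMonoid E] {k : ℕ} {F : ι → (ℕ → D) → E} (s : Finset ι)
    (h : ∀ i ∈ s, Dep k (F i)) : Dep k fun u => ∑ i ∈ s, F i u :=
  fun u u' huu => Finset.sum_congr rfl fun i hi => h i hi u u' huu

/-- The factorisation of a function of the first `k` coordinates. -/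
noncomputable def ext (k : ℕ) (w : Fin k → D) : ℕ → D :=
  fun i => if h : i < k then w ⟨i, h⟩ else Classical.arbitrary D

omit [Fintype D] [MeasurableSpace D] [MeasurableSingletonClass D] in
theorem Dep.eq {E : Type*} {k : ℕ} {F : (ℕ → D) → E} (h : Dep k F) (u : ℕ → D) :
    F u = F (ext k fun i => u i) := by
  apply h
  intro i hi
  simp [ext, hi]

omit [MeasurableSpace D] [MeasurableSingletonClass D] in
theorem Dep.finite_range {E : Type*} {k : ℕ} {F : (ℕ → D) → E} (h : Dep k F) :
    (Set.range F).Finite := by
  classical
  refine (Set.finite_range fun w : Fin k → D => F (ext k w)).subset ?_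
  rintro _ ⟨u, rfl⟩
  exact ⟨fun i => u i, (h.eq u).symm⟩

theorem Dep.measurable {E : Type*} [MeasurableSpace E] {k : ℕ} {F : (ℕ → D) → E} (h : Dep k F) :
    Measurable F := by
  have h1 : F = (fun w : Fin k → D => F (ext k w)) ∘ fun (u : ℕ → D) (i : Fin k) => u i := by
    funext u
    exact h.eq u
  rw [h1]
  refine Measurable.comp (measurable_of_countable _) ?_
  exact measurable_pi_lambda _ fun i => measurable_pi_apply _

theorem Dep.measurableSet {k : ℕ} {p : (ℕ → D) → Prop} (h : Dep k p) :
    MeasurableSet {u | p u} :=
  measurableSet_setOfPred.2 h.measurable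

theorem Dep.integrable {E : Type*} [NormedAddCommGroup E] [MeasurableSpace E] [BorelSpace E]
    [SecondCountableTopology E] {k : ℕ} {F : (ℕ → D) → E} (h : Dep k F) :
    Integrable F (unif D) := by
  obtain ⟨C, hC⟩ := (h.comp fun x => ‖x‖).finite_range.bddAbove
  refine Integrable.of_bound h.measurable.aestronglyMeasurable C (Eventually.of_forall fun u => ?_)
  exact hC ⟨u, rfl⟩

omit [Fintype D] [Nonempty D] [MeasurableSingletonClass D] in
theorem measurable_update_pair (k : ℕ) :
    Measurable fun p : (ℕ → D) × D => Function.update p.1 k p.2 := by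
  refine measurable_pi_lambda _ fun i => ?_
  by_cases hi : i = k
  · subst hi
    simpa using measurable_snd
  · have : (fun p : (ℕ → D) × D => Function.update p.1 k p.2 i) = fun p => p.1 i := by
      funext p
      simp [Function.update_of_ne hi]
    rw [this]
    exact (measurable_pi_apply i).comp measurable_fst

omit [MeasurableSingletonClass D] in
theorem map_update (k : ℕ) :
    ((unif D).prod (uniformOn (Set.univ : Set D))).map
      (fun p : (ℕ → D) × D => Function.update p.1 k p.2) = unif D := by
  classical
  apply Measure.eq_infinitePi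
  intro s t ht
  rw [Measure.map_apply (measurable_update_pair k)
    (MeasurableSet.pi s.countable_toSet fun i _ => ht i)]
  by_cases hk : k ∈ s
  · have h1 : (fun p : (ℕ → D) × D => Function.update p.1 k p.2) ⁻¹' (Set.pi (s : Set ℕ) t)
        = (Set.pi ((s.erase k : Finset ℕ) : Set ℕ) t) ×ˢ (t k) := by
      ext ⟨u, e⟩
      simp only [Set.mem_preimage, Set.mem_pi, Finset.mem_coe, Set.mem_prod, Finset.mem_erase]
      constructor
      · intro h
        refine ⟨fun i hi => ?_, ?_⟩
        · have := h i hi.2
          rwa [Function.update_of_ne hi.1] at this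
        · have := h k hk
          rwa [Function.update_self] at this
      · rintro ⟨h, h'⟩ i hi
        by_cases hik : i = k
        · subst hik
          rwa [Function.update_self]
        · rw [Function.update_of_ne hik]
          exact h i ⟨hik, hi⟩
    rw [h1, Measure.prod_prod, unif, Measure.infinitePi_pi _ fun i _ => ht i,
      Finset.prod_erase_mul s _ hk]
  · have h1 : (fun p : (ℕ → D) × D => Function.update p.1 k p.2) ⁻¹' (Set.pi (s : Set ℕ) t)
        = (Set.pi (s : Set ℕ) t) ×ˢ (Set.univ : Set D) := by
      ext ⟨u, e⟩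
      simp only [Set.mem_preimage, Set.mem_pi, Finset.mem_coe, Set.mem_prod, Set.mem_univ,
        and_true]
      refine forall₂_congr fun i hi => ?_
      have hik : i ≠ k := fun h => hk (h ▸ hi)
      rw [Function.update_of_ne hik]
    rw [h1, Measure.prod_prod, unif, Measure.infinitePi_pi _ fun i _ => ht i, measure_univ,
      mul_one]

theorem integral_uniformOn {E : Type*} [NormedAddCommGroup E] [NormedSpace ℝ E]
    [CompleteSpace E] (f : D → E) :
    ∫ e, f e ∂(uniformOn (Set.univ : Set D)) = (Fintype.card D : ℝ)⁻¹ • ∑ e, f e := by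
  classical
  rw [integral_fintype Integrable.of_finite, Finset.smul_sum]
  refine Finset.sum_congr rfl fun e _ => ?_
  congr 1
  rw [Measure.real, uniformOn_univ, Measure.count_singleton]
  simp

theorem tower {E : Type*} [NormedAddCommGroup E] [NormedSpace ℝ E] [CompleteSpace E]
    [MeasurableSpace E] [BorelSpace E] [SecondCountableTopology E] {n : ℕ} (k : ℕ)
    {F : (ℕ → D) → E} (h : Dep n F) :
    ∫ u, F u ∂unif D =
      ∫ u, (Fintype.card D : ℝ)⁻¹ • ∑ e, F (Function.update u k e) ∂unif D := by
  classical
  conv_lhs => rw [← map_update (D := D) k]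
  rw [integral_map (measurable_update_pair k).aemeasurable
    h.measurable.aestronglyMeasurable, integral_prod]
  · refine integral_congr_ae (Eventually.of_forall fun u => ?_)
    exact integral_uniformOn fun e => F (Function.update u k e)
  · obtain ⟨C, hC⟩ := (h.comp fun x => ‖x‖).finite_range.bddAbove
    refine Integrable.of_bound
      (h.measurable.comp (measurable_update_pair k)).aestronglyMeasurable C
      (Eventually.of_forall fun u => ?_)
    exact hC ⟨_, rfl⟩

end Pool.Agent.Helper11.Qip
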